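import Pool.Agent.helper66.LIN.Spec

set_option autoImplicit false

namespace LSH.Lin

/-- the labels of the vertices with two children -/
def NBD_brs {V : Type} : LT V → List V
  | .leaf _ => []
  | .un _ t => NBD_brs t
  | .br v s t => v :: (NBD_brs s ++ NBD_brs t)

theorem NBD_len {V : Type} (t : LT V) : (NBD_brs t).length + 1 = t.shape.lv := by
  induction t with
  | leaf v => rfl
  | un v t ih => exact ih
  | br v s t ihs iht =>
    change (v :: (NBD_brs s ++ NBD_brs t)).length + 1 = s.shape.lv + t.shape.lv
    rw [List.length_cons, List.length_append, ← ihs, ← iht]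
    omega

theorem NBD_sub {V : Type} (t : LT V) : (NBD_brs t).Sublist t.verts := by
  induction t with
  | leaf v => exact List.nil_sublist _
  | un v t ih => exact ih.trans (List.sublist_cons_self _ _)
  | br v s t ihs iht =>
    change (v :: (NBD_brs s ++ NBD_brs t)).Sublist (v :: (s.verts ++ t.verts))
    exact (ihs.append iht).cons_cons v

theorem NBD_root {V : Type} (t : LT V) : t.root ∈ t.verts := by
  cases t with
  | leaf v => exact List.mem_singleton.2 rfl
  | un v t => exact List.mem_cons_self
  | br v s t => exact List.mem_cons_self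

theorem NBD_two {V : Type} (t : LT V) (h : t.verts.Nodup) (v : V) (hv : v ∈ NBD_brs t) :
    ∃ c d, c ≠ d ∧ (v, c) ∈ t.edg ∧ (v, d) ∈ t.edg := by
  induction t with
  | leaf w => exact absurd hv (by simp [NBD_brs])
  | un w t ih =>
    have h' : (w :: t.verts).Nodup := h
    obtain ⟨c, d, hcd, hc, hd⟩ := ih (List.nodup_cons.1 h').2 hv
    exact ⟨c, d, hcd, List.mem_cons_of_mem _ hc, List.mem_cons_of_mem _ hd⟩
  | br w s t ihs iht =>
    have h' : (w :: (s.verts ++ t.verts)).Nodup := h
    have h2 := (List.nodup_cons.1 h').2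
    rw [List.nodup_append] at h2
    obtain ⟨hs, ht, hst⟩ := h2
    have hv' : v ∈ w :: (NBD_brs s ++ NBD_brs t) := hv
    rw [List.mem_cons, List.mem_append] at hv'
    change ∃ c d, c ≠ d ∧ (v, c) ∈ ((w, s.root) :: s.edg) ++ ((w, t.root) :: t.edg) ∧
      (v, d) ∈ ((w, s.root) :: s.edg) ++ ((w, t.root) :: t.edg)
    rcases hv' with rfl | hv' | hv'
    · refine ⟨s.root, t.root, hst _ (NBD_root s) _ (NBD_root t), ?_, ?_⟩
      · exact List.mem_append_left _ List.mem_cons_self
      · exact List.mem_append_right _ List.mem_cons_self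
    · obtain ⟨c, d, hcd, hc, hd⟩ := ihs hs hv'
      exact ⟨c, d, hcd, List.mem_append_left _ (List.mem_cons_of_mem _ hc),
        List.mem_append_left _ (List.mem_cons_of_mem _ hd)⟩
    · obtain ⟨c, d, hcd, hc, hd⟩ := iht ht hv'
      exact ⟨c, d, hcd, List.mem_append_right _ (List.mem_cons_of_mem _ hc),
        List.mem_append_right _ (List.mem_cons_of_mem _ hd)⟩

theorem NBD (hTR : TR_stmt) : NBD_stmt := by
  intro n T hT h3 r t hr _ hnd _ hedg
  obtain ⟨-, hpar, -⟩ := hTR n T hT r
  have hsub : ∀ v ∈ NBD_brs t, (T.neighborSet v).ncard = 3 := by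
    intro v hv
    obtain ⟨c, d, hcd, hc, hd⟩ := NBD_two t hnd v hv
    rw [hedg] at hc hd
    have hvr : v ≠ r := by
      rintro rfl
      have h2 : ({c, d} : Set (Fin n)).ncard ≤ (T.neighborSet v).ncard :=
        Set.ncard_le_ncard (by
          intro x hx
          rcases hx with rfl | hx
          · exact hc.1
          · rw [Set.mem_singleton_iff] at hx
            rw [hx]
            exact hd.1) (Set.toFinite _)
      rw [Set.ncard_pair hcd] at h2
      omega
    obtain ⟨u, ⟨hu, hud⟩, -⟩ := hpar v hvr
    have huc : u ≠ c := by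
      rintro rfl
      have := hc.2
      omega
    have hud' : u ≠ d := by
      rintro rfl
      have := hd.2
      omega
    have h2 : ({u, c, d} : Set (Fin n)).ncard ≤ (T.neighborSet v).ncard :=
      Set.ncard_le_ncard (by
        intro x hx
        rcases hx with rfl | rfl | hx
        · exact hu.symm
        · exact hc.1
        · rw [Set.mem_singleton_iff] at hx
          rw [hx]
          exact hd.1) (Set.toFinite _)
    rw [Set.ncard_eq_three.2 ⟨u, c, d, huc, hud', hcd, rfl⟩] at h2
    exact le_antisymm (h3 v) h2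
  have hnd' : (NBD_brs t).Nodup := (NBD_sub t).nodup hnd
  have hle : (NBD_brs t).length ≤ {v | (T.neighborSet v).ncard = 3}.ncard := by
    rw [← List.toFinset_card_of_nodup hnd', ← Set.ncard_coe_finset]
    refine Set.ncard_le_ncard ?_ (Set.toFinite _)
    intro v hv
    rw [Finset.mem_coe, List.mem_toFinset] at hv
    exact hsub v hv
  have hlen := NBD_len t
  omega

end LSH.Lin
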